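import Pool.Agent.Run7.h806.Series

set_option autoImplicit false

/-!
The question on the subgroup generated by the `p`-elements of a locally finite group with the
`p`-minimal condition: reduction to infinite simple `p'`-sections.
-/

namespace Pool.Agent.Results.MP_8fcd2c_al.SimpleReduction

/-- `g` is a `p`-element: its order is a power of `p`. -/
def IsPElement (p : ℕ) {G : Type} [Group G] (g : G) : Prop := ∃ k : ℕ, g ^ (p ^ k) = 1

/-- The subgroup generated by all `p`-elements. -/
def pGenerated (p : ℕ) (G : Type) [Group G] : Subgroup G :=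
  Subgroup.closure {g : G | IsPElement p g}

/-- The `p`-minimal condition: there is no infinite strictly descending chain of subgroups
`H 0 > H 1 > H 2 > ⋯` such that every difference `H i \ H (i + 1)` contains a `p`-element. -/
def PMinimalCondition (p : ℕ) (G : Type) [Group G] : Prop :=
  ¬ ∃ H : ℕ → Subgroup G, ∀ i : ℕ, H (i + 1) < H i ∧
    ∃ g ∈ H i, g ∉ H (i + 1) ∧ IsPElement p g

/-- `G` has a finite subnormal series in which every factor is finite or a `p'`-group. -/
def HasFiniteOrPPrimeSeries (p : ℕ) (G : Type) [Group G] : Prop :=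
  ∃ n : ℕ, ∃ H : ℕ → Subgroup G, H 0 = ⊥ ∧ H n = ⊤ ∧
    ∀ i < n, H i ≤ H (i + 1) ∧ ((H i).subgroupOf (H (i + 1))).Normal ∧
      ((H i).relIndex (H (i + 1)) ≠ 0 ∨
        ∀ x ∈ H (i + 1), ∀ k : ℕ, x ^ (p ^ k) ∈ H i → x ∈ H i)

/-- Chernikov groups: there is a normal subgroup `A` of finite index which is abelian, periodic,
divisible and has finitely many elements of prime order (equivalently, `A` is a direct product of
finitely many Prüfer groups). -/
def IsChernikov (K : Type) [Group K] : Prop :=
  ∃ A : Subgroup K, A.Normal ∧ A.FiniteIndex ∧ (∀ a ∈ A, ∀ b ∈ A, a * b = b * a) ∧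
    (∀ a ∈ A, IsOfFinOrder a) ∧ (∀ a ∈ A, ∀ m : ℕ, 0 < m → ∃ b ∈ A, b ^ m = a) ∧
    {a : K | a ∈ A ∧ ∃ q : ℕ, q.Prime ∧ a ^ q = 1}.Finite

/-- `S` is a section of `G`: a homomorphic image of a subgroup of `G`. -/
def IsSection (S : Type) [Group S] (G : Type) [Group G] : Prop :=
  ∃ (L : Subgroup G) (f : L →* S), Function.Surjective f

/-- The exceptional simple groups: `S` is an infinite simple group without nontrivial
`p`-elements and either every proper subgroup of `S` is Chernikov, or `S` has an automorphism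
`φ` of order `p` such that for every proper `φ`-invariant subgroup `T` of `S` the subgroup
`[T, φ]` generated by the elements `t⁻¹ φ(t)`, `t ∈ T`, is Chernikov. -/
def IsExceptional (p : ℕ) (S : Type) [Group S] : Prop :=
  Infinite S ∧ IsSimpleGroup S ∧ (∀ s : S, IsPElement p s → s = 1) ∧
  ((∀ T : Subgroup S, T ≠ ⊤ → IsChernikov T) ∨
   ∃ φ : MulAut S, φ ≠ 1 ∧ φ ^ p = 1 ∧ ∀ T : Subgroup S, T ≠ ⊤ → (∀ t ∈ T, φ t ∈ T) →
     IsChernikov (Subgroup.closure {s : S | ∃ t ∈ T, s = t⁻¹ * φ t}))

theorem chernikov_of_vch {K : Type} [Group K] (ht : ∀ g : K, IsOfFinOrder g)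
    (h : Run7.h806.VCh K) : IsChernikov K := by
  obtain ⟨A, h1, h2, h3, h4, h5⟩ := h.final
  exact ⟨A, h1, h2, h3, fun a _ => ht a, h4, h5⟩

/-- Let `p` be a prime and `G` a periodic group with the `p`-minimal condition and a finite
subnormal series whose factors are finite or `p'`-groups. Then the subgroup generated by the
`p`-elements of `G` is Chernikov, unless `G` has an exceptional simple section. -/
theorem result (p : ℕ) (hp : p.Prime) (G : Type) [Group G] (hper : ∀ g : G, IsOfFinOrder g)
    (hmin : PMinimalCondition p G) (hser : HasFiniteOrPPrimeSeries p G) :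
    IsChernikov (pGenerated p G) ∨
      ∃ (S : Type) (_ : Group S), IsSection S G ∧ IsExceptional p S := by
  obtain ⟨n, H, h0, hn, hs⟩ := hser
  rcases Run7.h806.series_main hp hper hmin n H h0 hn hs with h | ⟨S, hS, ⟨L, f, hf⟩, h2, h3, h4, h5⟩
  · left
    have e : Run7.h806.PP p (⊤ : Subgroup G) = pGenerated p G := by
      rw [Run7.h806.PP, pGenerated]
      congr 1
      ext g
      exact ⟨fun h => h.2, fun h => ⟨trivial, h⟩⟩
    rw [e] at h
    exact chernikov_of_vch (Run7.h806.tors_sub hper _) h
  · right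
    have htS : ∀ s : S, IsOfFinOrder s :=
      Run7.h806.tors_surj (Run7.h806.tors_sub hper L) f hf
    refine ⟨S, hS, ⟨L, f, hf⟩, h2, h3, h4, ?_⟩
    rcases h5 with h5 | ⟨φ, h6, h7, h8⟩
    · left
      exact fun T hT => chernikov_of_vch (Run7.h806.tors_sub htS T) (h5 T hT)
    · right
      refine ⟨φ, h6, h7, fun T hT hinv => ?_⟩
      exact chernikov_of_vch (Run7.h806.tors_sub htS _) (h8 T hT hinv)

end Pool.Agent.Results.MP_8fcd2c_al.SimpleReduction
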